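import Pool.Agent.Helper27.VF.Goals

/-!
# VF-APP (shadow, helper54)
-/

set_option autoImplicit false

namespace Pool.Agent.Helper54.VF

open Pool.Agent.Helper27.VF

universe u

/-- a finitely generated free group has a finite basis -/
theorem finite_of_fg {X : Type u} (h : Group.FG (FreeGroup X)) : Finite X := by
  classical
  obtain ⟨T, hT⟩ := Group.fg_def.1 h
  -- the total exponents
  let e : X → FreeGroup X →* Multiplicative ℤ := fun x =>
    FreeGroup.lift fun y => if y = x then Multiplicative.ofAdd 1 else 1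
  have hfin : ∀ t : FreeGroup X, {x | e x t ≠ 1}.Finite := by
    intro t
    induction t using FreeGroup.induction_on with
    | C1 => simp
    | of y =>
      refine (Set.finite_singleton y).subset fun x hx => ?_
      by_contra hne
      apply hx
      have : y ≠ x := fun h => hne (by rw [h]; rfl)
      simp [e, this]
    | inv_of y ih =>
      refine ih.subset fun x hx => ?_
      intro h1
      apply hx
      rw [map_inv, h1, inv_one]
    | mul a b ha hb =>
      refine (ha.union hb).subset fun x hx => ?_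
      by_contra hne
      rw [Set.mem_union, not_or] at hne
      obtain ⟨h1, h2⟩ := hne
      apply hx
      have h1' : e x a = 1 := by_contra h1
      have h2' : e x b = 1 := by_contra h2
      rw [map_mul, h1', h2', mul_one]
  have huniv : (Set.univ : Set X) ⊆ ⋃ t ∈ T, {x | e x t ≠ 1} := by
    intro x _
    by_contra hne
    have h1 : ∀ t ∈ T, e x t = 1 := by
      intro t ht
      by_contra h2
      exact hne (Set.mem_biUnion ht h2)
    have h2 : Subgroup.closure (T : Set (FreeGroup X)) ≤ (e x).ker := by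
      rw [Subgroup.closure_le]
      intro t ht
      exact h1 t ht
    rw [hT] at h2
    have h3 : e x (FreeGroup.of x) = 1 := h2 (Subgroup.mem_top _)
    simp [e] at h3
  have hf : (⋃ t ∈ T, {x | e x t ≠ 1}).Finite := by
    refine Set.Finite.biUnion T.finite_toSet fun t _ => hfin t
  exact Set.finite_univ_iff.1 (hf.subset huniv)

theorem closure_fin {Γ : Type u} [Group Γ] (S : Set Γ) : ∀ x ∈ Subgroup.closure S,
    ∃ F : Set Γ, F.Finite ∧ F ⊆ S ∧ x ∈ Subgroup.closure F := by
  intro x hx
  induction hx using Subgroup.closure_induction with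
  | mem x hx => exact ⟨{x}, Set.finite_singleton x, Set.singleton_subset_iff.2 hx,
      Subgroup.subset_closure rfl⟩
  | one => exact ⟨∅, Set.finite_empty, Set.empty_subset _, Subgroup.one_mem _⟩
  | mul x y _ _ ih1 ih2 =>
    obtain ⟨F1, f1, s1, m1⟩ := ih1
    obtain ⟨F2, f2, s2, m2⟩ := ih2
    exact ⟨F1 ∪ F2, f1.union f2, Set.union_subset s1 s2, Subgroup.mul_mem _
      (Subgroup.closure_mono Set.subset_union_left m1)
      (Subgroup.closure_mono Set.subset_union_right m2)⟩
  | inv x _ ih =>
    obtain ⟨F1, f1, s1, m1⟩ := ih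
    exact ⟨F1, f1, s1, Subgroup.inv_mem _ m1⟩

theorem closure_fin_top {Γ : Type u} [Group Γ] (hΓ : Group.FG Γ) (S : Set Γ)
    (hS : Subgroup.closure S = ⊤) :
    ∃ F : Set Γ, F.Finite ∧ F ⊆ S ∧ Subgroup.closure F = ⊤ := by
  obtain ⟨T, hT⟩ := Group.fg_def.1 hΓ
  have h1 : ∀ t : Γ, ∃ F : Set Γ, F.Finite ∧ F ⊆ S ∧ t ∈ Subgroup.closure F := fun t =>
    closure_fin S t (by rw [hS]; exact Subgroup.mem_top _)
  choose F hF1 hF2 hF3 using h1
  refine ⟨⋃ t ∈ T, F t, Set.Finite.biUnion T.finite_toSet fun t _ => hF1 t,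
    Set.iUnion₂_subset fun t _ => hF2 t, ?_⟩
  rw [eq_top_iff, ← hT, Subgroup.closure_le]
  intro t ht
  exact Subgroup.closure_mono (Set.subset_biUnion_of_mem (u := F) ht) (hF3 t)

theorem vfAPP : IndStmt.{u} → KndStmt.{u} → AppStmt.{u} := by
  intro hI hK Γ _ hΓ hA S hS hinv hone hSinf
  obtain ⟨A, hfi, hfree⟩ := hA
  obtain ⟨S₀, hS₀f, hS₀S, hS₀⟩ := closure_fin_top hΓ S hS
  -- the rank
  have hAfg : Group.FG A := Subgroup.fg_of_index_ne_zero A
  have hX : Group.FG (FreeGroup (IsFreeGroup.Generators A)) := by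
    have := hAfg
    exact Group.fg_of_surjective (f := (IsFreeGroup.toFreeGroup A).toMonoidHom)
      (IsFreeGroup.toFreeGroup A).surjective
  have hXf : Finite (IsFreeGroup.Generators A) := finite_of_fg hX
  obtain ⟨m, ⟨eX⟩⟩ := Finite.exists_equiv_fin (IsFreeGroup.Generators A)
  have hm : Nonempty (FreeGroup (Fin m) ≃* A) :=
    ⟨(FreeGroup.freeGroupCongr eX.symm).trans (IsFreeGroup.toFreeGroup A).symm⟩
  set G : SimpleGraph Γ := SimpleGraph.fromRel fun a b : Γ => a⁻¹ * b ∈ S with hG
  set G₀ : SimpleGraph Γ := SimpleGraph.fromRel fun a b : Γ => a⁻¹ * b ∈ S₀ with hG₀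
  have hne : (Filter.cofinite ⊓ Filter.principal S).NeBot :=
    hSinf.cofinite_inf_principal_neBot
  set p : Ultrafilter Γ := Ultrafilter.of (Filter.cofinite ⊓ Filter.principal S) with hp
  have hple : (p : Filter Γ) ≤ Filter.cofinite ⊓ Filter.principal S := Ultrafilter.of_le _
  have hSp : S ∈ p := (hple.trans inf_le_right) (Filter.mem_principal_self S)
  have hinvS : ∀ (T : Set Γ) (a : A) (x y : Γ),
      (SimpleGraph.fromRel fun a b : Γ => a⁻¹ * b ∈ T).Adj x y →
      (SimpleGraph.fromRel fun a b : Γ => a⁻¹ * b ∈ T).Adj (a • x) (a • y) := by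
    intro T a x y hxy
    rw [SimpleGraph.fromRel_adj] at hxy ⊢
    have e1 : ∀ u v : Γ, (a • u)⁻¹ * (a • v) = u⁻¹ * v := by
      intro u v
      rw [Subgroup.smul_def, Subgroup.smul_def, smul_eq_mul, smul_eq_mul]
      group
    rw [e1, e1]
    exact ⟨fun h => hxy.1 (MulAction.injective a h), hxy.2⟩
  have hstg : Stg A G G₀ (1 : Γ) p := by
    refine
      { free := ?_, fin := ?_, le := ?_, inv := hinvS S, inv₀ := hinvS S₀, conn := ?_, lf := ?_,
        nonp := ?_, nb := ?_ }
    · intro a x hx
      rw [Subgroup.smul_def, smul_eq_mul, mul_eq_right] at hx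
      exact Subtype.ext hx
    · have : Finite (Γ ⧸ A) := Subgroup.finite_quotient_of_finiteIndex
      refine ⟨Set.range fun q : Γ ⧸ A => (Quotient.out q)⁻¹, Set.finite_range _, fun x => ?_⟩
      have h1 : (QuotientGroup.mk (Quotient.out (QuotientGroup.mk x⁻¹ : Γ ⧸ A)) : Γ ⧸ A) =
          QuotientGroup.mk x⁻¹ := QuotientGroup.out_eq' _
      rw [QuotientGroup.eq] at h1
      refine ⟨⟨_, h1⟩⁻¹, _, ⟨QuotientGroup.mk x⁻¹, rfl⟩, ?_⟩
      rw [Subgroup.smul_def, smul_eq_mul]
      simp
    · intro x y hxy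
      rw [hG₀, SimpleGraph.fromRel_adj] at hxy
      rw [hG, SimpleGraph.fromRel_adj]
      exact ⟨hxy.1, hxy.2.imp (fun h => hS₀S h) (fun h => hS₀S h)⟩
    · have h1 : ∀ g ∈ Subgroup.closure S₀, ∀ x, G₀.Reachable x (x * g) := by
        intro g hg
        induction hg using Subgroup.closure_induction with
        | mem s hs =>
          intro x
          refine SimpleGraph.Adj.reachable ?_
          rw [hG₀, SimpleGraph.fromRel_adj]
          refine ⟨fun h => ?_, Or.inl (by rw [inv_mul_cancel_left]; exact hs)⟩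
          have : s = 1 := by simpa using h.symm
          exact hone (this ▸ hS₀S hs)
        | one => intro x; rw [mul_one]
        | mul a b _ _ ih1 ih2 =>
          intro x
          rw [← mul_assoc]
          exact (ih1 x).trans (ih2 _)
        | inv a _ ih =>
          intro x
          have := ih (x * a⁻¹)
          rw [inv_mul_cancel_right] at this
          exact this.symm
      refine ⟨fun x y => ?_⟩
      have := h1 (x⁻¹ * y) (by rw [hS₀]; exact Subgroup.mem_top _) x
      rwa [mul_inv_cancel_left] at this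
    · intro x
      refine ((hS₀f.image fun s => x * s).union (hS₀f.image fun s => x * s⁻¹)).subset ?_
      intro y hy
      have hy' : G₀.Adj x y := hy
      rw [hG₀, SimpleGraph.fromRel_adj] at hy'
      rcases hy'.2 with h | h
      · exact Or.inl ⟨_, h, by simp⟩
      · exact Or.inr ⟨_, h, by simp⟩
    · intro F hF hFp
      have h1 : Fᶜ ∈ p := (hple.trans inf_le_left) hF.compl_mem_cofinite
      exact (Ultrafilter.compl_mem_iff_notMem.1 h1) hFp
    · refine Filter.mem_of_superset hSp fun s hs => ?_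
      change G.Adj 1 s
      rw [hG, SimpleGraph.fromRel_adj]
      exact ⟨fun h => hone (h ▸ hs), Or.inl (by simpa using hs)⟩
  obtain ⟨Z, hZ, hZc⟩ := hI m A Γ G G₀ 1 p hm hstg
  have hinj : Function.Injective fun a : A => a • (1 : Γ) := by
    intro a b hab
    have hab' : (a : Γ) * 1 = (b : Γ) * 1 := hab
    rw [mul_one, mul_one] at hab'
    exact Subtype.ext hab'
  refine hK Γ G ((fun a : A => a • (1 : Γ)) '' Z) (hZ.image hinj.injOn) ?_
  rintro _ ⟨a, ha, rfl⟩ _ ⟨b, hb, rfl⟩ c hc ⟨h1, h2⟩
  exact hZc a ha b hb c hc ⟨fact1 hstg hc h1, fact1' hstg hc h2⟩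

end Pool.Agent.Helper54.VF
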