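import Pool.Agent.Helper96.VF.Goals

/-!
# Project VF (MP_6829b3_nt), packet MUL and ADM
-/

set_option autoImplicit false

namespace Pool.Agent.Helper54.VF

open Pool.Agent.Helper96.VF

theorem cc_cases (n m : ℕ) :
    (cc n m = 30 ∧ 5 ∣ m ∧ ¬ (Ty n (m / 5) ↔ Ty n m)) ∨
    (cc n m = 35 ∧ 35 ∣ m ∧ ¬ (Ty n (m / 35) ↔ Ty n (m / 7)) ∧ ¬ (Ty n (m / 7) ↔ Ty n m)) ∨
    cc n m = 36 := by
  unfold cc
  split_ifs with h1 h2
  · exact Or.inl ⟨rfl, h1⟩
  · exact Or.inr (Or.inl ⟨rfl, h2⟩)
  · exact Or.inr (Or.inr rfl)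

theorem cc_30 (n m : ℕ) (h1 : 5 ∣ m) (h2 : ¬ (Ty n (m / 5) ↔ Ty n m)) : cc n m = 30 := by
  unfold cc
  rw [if_pos ⟨h1, h2⟩]

theorem cc_35 (n m : ℕ) (h1 : 35 ∣ m) (h2 : ¬ (Ty n (m / 35) ↔ Ty n (m / 7)))
    (h3 : ¬ (Ty n (m / 7) ↔ Ty n m)) : cc n m = 30 ∨ cc n m = 35 := by
  unfold cc
  split_ifs with h4 h5
  · exact Or.inl rfl
  · exact Or.inr rfl
  · exact absurd ⟨h1, h2, h3⟩ h5

theorem cc_ge (n m : ℕ) : 30 ≤ cc n m := by
  rcases cc_cases n m with h | h | h
  · omega
  · omega
  · omega

theorem cc_le (n m : ℕ) : cc n m ≤ 36 := by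
  rcases cc_cases n m with h | h | h
  · omega
  · omega
  · omega

theorem el_of (hU : UNQ) {n a b m : ℕ} (hm : Nat.Coprime m 6) (h : InA n (2 ^ a * 3 ^ b * m)) :
    El n a b m := by
  obtain ⟨a', b', m', hm', he, hel⟩ := h
  obtain ⟨rfl, rfl, rfl⟩ := hU a b m a' b' m' hm hm' he
  exact hel

theorem par1 {A A1 T : Prop} (p : A1 ↔ ¬ A) (hP : A ↔ ¬ T) : ¬ (A1 ↔ ¬ T) := by tauto

theorem par2 {A A1 T : Prop} (p : A1 ↔ ¬ A) (hP : ¬ (A ↔ ¬ T)) : A1 ↔ ¬ T := by tauto

theorem par3 {A T T' : Prop} (hP : ¬ (A ↔ ¬ T)) (hT : T' ↔ T) (h : A ↔ ¬ T') : False := by tauto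

theorem par4 {A T T' : Prop} (hP : ¬ (A ↔ ¬ T)) (hT : ¬ (T' ↔ T)) : A ↔ ¬ T' := by tauto

theorem par5 {T T' : Prop} (hT : ¬ (T' ↔ T)) : ¬ (T ↔ T') := by tauto

theorem gMUL (hU : UNQ) (h3 : C3N) (h5 : C5N) : MUL := by
  intro n a b m k hm hEl hk hkn hIn
  have hm0 : 0 < m := by
    rcases Nat.eq_zero_or_pos m with h | h
    · subst h
      norm_num at hm
    · exact h
  have hpow : 0 < 2 ^ a * 3 ^ b := by positivity
  have hx0 : 0 < 2 ^ a * 3 ^ b * m := Nat.mul_pos hpow hm0
  have hmx : m ≤ 2 ^ a * 3 ^ b * m := Nat.le_mul_of_pos_left m hpow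
  have hm5 : Nat.Coprime (5 * m) 6 := Nat.Coprime.mul_left (by norm_num) hm
  have hm7 : Nat.Coprime (7 * m) 6 := Nat.Coprime.mul_left (by norm_num) hm
  -- the candidates
  have k2 : k = 2 → El n (a + 1) b m := by
    rintro rfl
    apply el_of hU hm
    have e : 2 ^ (a + 1) * 3 ^ b * m = 2 * (2 ^ a * 3 ^ b * m) := by ring
    rw [e]
    exact hIn
  have k3 : k = 3 → El n a (b + 1) m := by
    rintro rfl
    apply el_of hU hm
    have e : 2 ^ a * 3 ^ (b + 1) * m = 3 * (2 ^ a * 3 ^ b * m) := by ring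
    rw [e]
    exact hIn
  have k4 : k = 4 → El n (a + 2) b m := by
    rintro rfl
    apply el_of hU hm
    have e : 2 ^ (a + 2) * 3 ^ b * m = 4 * (2 ^ a * 3 ^ b * m) := by ring
    rw [e]
    exact hIn
  have k5 : k = 5 → El n a b (5 * m) := by
    rintro rfl
    apply el_of hU hm5
    have e : 2 ^ a * 3 ^ b * (5 * m) = 5 * (2 ^ a * 3 ^ b * m) := by ring
    rw [e]
    exact hIn
  have k6 : k = 6 → El n (a + 1) (b + 1) m := by
    rintro rfl
    apply el_of hU hm
    have e : 2 ^ (a + 1) * 3 ^ (b + 1) * m = 6 * (2 ^ a * 3 ^ b * m) := by ring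
    rw [e]
    exact hIn
  have k7 : k = 7 → El n a b (7 * m) := by
    rintro rfl
    apply el_of hU hm7
    have e : 2 ^ a * 3 ^ b * (7 * m) = 7 * (2 ^ a * 3 ^ b * m) := by ring
    rw [e]
    exact hIn
  unfold El at hEl k2 k3 k4 k5 k6 k7
  have e2 : 2 ^ (a + 1) * 3 ^ b * m = 2 * (2 ^ a * 3 ^ b * m) := by ring
  have e3 : 2 ^ a * 3 ^ (b + 1) * m = 3 * (2 ^ a * 3 ^ b * m) := by ring
  have e4 : 2 ^ (a + 2) * 3 ^ b * m = 4 * (2 ^ a * 3 ^ b * m) := by ring
  have e5 : 2 ^ a * 3 ^ b * (5 * m) = 5 * (2 ^ a * 3 ^ b * m) := by ring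
  have e6 : 2 ^ (a + 1) * 3 ^ (b + 1) * m = 6 * (2 ^ a * 3 ^ b * m) := by ring
  have e7 : 2 ^ a * 3 ^ b * (7 * m) = 7 * (2 ^ a * 3 ^ b * m) := by ring
  rw [e2] at k2
  rw [e3] at k3
  rw [e4] at k4
  rw [e5] at k5
  rw [e6] at k6
  rw [e7] at k7
  clear hIn
  generalize 2 ^ a * 3 ^ b * m = x at *
  have p1 : Even (a + 1) ↔ ¬ Even a := Nat.even_add_one
  have p2 : Even (a + 2) ↔ Even a := by
    rw [Nat.even_add]
    simp
  have c30 := cc_ge n m
  have c36 := cc_le n m
  have d5 := cc_le n (5 * m)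
  have d7 := cc_le n (7 * m)
  have c30n : 30 * n ≤ cc n m * n := Nat.mul_le_mul_right n c30
  have c36n : cc n m * n ≤ 36 * n := Nat.mul_le_mul_right n c36
  have d5n : cc n (5 * m) * n ≤ 36 * n := Nat.mul_le_mul_right n d5
  have d7n : cc n (7 * m) * n ≤ 36 * n := Nat.mul_le_mul_right n d7
  have hk7 : k ≤ 7 := by
    by_contra hc
    have h8 : 8 * x ≤ k * x := Nat.mul_le_mul_right x (by omega)
    rcases hEl with h | h
    · omega
    · omega
  by_cases hP : (Even a ↔ ¬ Ty n m)
  · rw [if_pos hP]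
    have hE : cc n m * n < 144 * x ∧ 36 * x ≤ cc n m * n := by
      rcases hEl with h | h
      · exact h.2
      · exact absurd hP h.1
    clear hEl
    obtain ⟨hE1, hE2⟩ := hE
    by_contra hk3
    have hcase : k = 2 ∨ k = 4 ∨ k = 5 ∨ k = 6 ∨ k = 7 := by
      clear k2 k3 k4 k5 k6 k7
      omega
    rcases hcase with h | h | h | h | h
    · have k' := k2 h
      clear k2 k3 k4 k5 k6 k7
      rcases k' with h' | h'
      · exact par1 p1 hP h'.1
      · have h'' := h'.2
        clear h'
        omega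
    · have k' := k4 h
      clear k2 k3 k4 k5 k6 k7
      rcases k' with h' | h'
      · have h'' := h'.2
        clear h'
        omega
      · have h'' := h'.2
        clear h'
        omega
    · have k' := k5 h
      clear k2 k3 k4 k5 k6 k7
      rcases k' with h' | h'
      · have h'' := h'.2
        clear h'
        omega
      · have h'' := h'.2
        clear h'
        omega
    · have k' := k6 h
      clear k2 k3 k4 k5 k6 k7
      rcases k' with h' | h'
      · have h'' := h'.2
        clear h'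
        omega
      · have h'' := h'.2
        clear h'
        omega
    · have k' := k7 h
      clear k2 k3 k4 k5 k6 k7
      rcases k' with h' | h'
      · have h'' := h'.2
        clear h'
        omega
      · have h'' := h'.2
        clear h'
        omega
  · rw [if_neg hP]
    have hE : cc n m * n < 216 * x ∧ 72 * x ≤ cc n m * n := by
      rcases hEl with h | h
      · exact absurd h.1 hP
      · exact h.2
    clear hEl
    obtain ⟨hE1, hE2⟩ := hE
    by_contra hk2
    have hcase : k = 3 ∨ k = 4 ∨ k = 5 ∨ k = 6 ∨ k = 7 := by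
      clear k2 k3 k4 k5 k6 k7
      omega
    rcases hcase with h | h | h | h | h
    · have k' := k3 h
      clear k2 k3 k4 k5 k6 k7
      rcases k' with h' | h'
      · exact hP h'.1
      · have h'' := h'.2
        clear h'
        omega
    · have k' := k4 h
      clear k2 k3 k4 k5 k6 k7
      rcases k' with h' | h'
      · exact hP ((iff_congr p2 Iff.rfl).1 h'.1)
      · have h'' := h'.2
        clear h'
        omega
    · -- k = 5
      have k' := k5 h
      clear k2 k3 k4 k5 k6 k7
      subst h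
      by_cases hT : (Ty n (5 * m) ↔ Ty n m)
      · rcases k' with h' | h'
        · exact par3 hP hT h'.1
        · have h'' := h'.2
          clear h'
          omega
      · have hc5 : cc n (5 * m) = 30 := by
          apply cc_30
          · exact Dvd.intro m rfl
          · rw [Nat.mul_div_cancel_left m (by norm_num : 0 < 5)]
            exact par5 hT
        rw [hc5] at k'
        rcases k' with h' | h'
        · have h'' := h'.2
          clear h'
          have h5n : 5 * m ≤ n := by omega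
          rcases cc_cases n m with h0 | h0 | h0
          · exact hT (h3 n m hm0 h0.2.1 h5n h0.2.2)
          · exact hT (h5 n m hm0 h0.2.1 h5n h0.2.2.1 h0.2.2.2)
          · rw [h0] at hE1
            omega
        · exact h'.1 (par4 hP hT)
    · have k' := k6 h
      clear k2 k3 k4 k5 k6 k7
      rcases k' with h' | h'
      · have h'' := h'.2
        clear h'
        omega
      · exact h'.1 (par2 p1 hP)
    · -- k = 7
      have k' := k7 h
      clear k2 k3 k4 k5 k6 k7
      subst h
      have h0 : cc n m = 30 ∧ 5 ∣ m ∧ ¬ (Ty n (m / 5) ↔ Ty n m) := by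
        rcases cc_cases n m with h0 | h0 | h0
        · exact h0
        · rw [h0.1] at hE1
          exfalso
          clear h0 k'
          omega
        · rw [h0] at hE1
          exfalso
          clear k'
          omega
      rw [h0.1] at hE1 hE2
      by_cases hT : (Ty n (7 * m) ↔ Ty n m)
      · rcases k' with h' | h'
        · exact par3 hP hT h'.1
        · have h'' := h'.2
          clear h' h0
          omega
      · have hc7 : cc n (7 * m) = 30 ∨ cc n (7 * m) = 35 := by
          obtain ⟨t, ht⟩ := h0.2.1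
          have e1 : 7 * m / 7 = m := Nat.mul_div_cancel_left m (by norm_num : 0 < 7)
          have e2 : 7 * m / 35 = m / 5 := by
            rw [ht]
            clear h0 k' c30 c36 d5 d7 c30n c36n d5n d7n
            omega
          apply cc_35
          · rw [ht]
            exact ⟨t, by ring⟩
          · rw [e1, e2]
            exact h0.2.2
          · rw [e1]
            exact par5 hT
        rcases k' with h' | h'
        · have h'' := h'.2
          clear h' h0
          rcases hc7 with hc | hc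
          · rw [hc] at h''
            omega
          · rw [hc] at h''
            omega
        · exact h'.1 (par4 hP hT)

theorem gADM (h : MUL) : ADM := by
  intro n u hu v hv w hw huv huw hvw hd
  obtain ⟨⟨k, hk⟩, ⟨l, hl⟩⟩ := hd
  classical
  simp only [Aset, Finset.mem_filter, Finset.mem_Icc] at hu hv hw
  obtain ⟨a, b, m, hm, he, hel⟩ := hu.2
  have key : ∀ (v k : ℕ), v = u * k → 1 ≤ v → v ≤ n → u ≠ v → InA n v →
      k = (open Classical in if (Even a ↔ ¬ Ty n m) then 3 else 2) := by
    intro v k hk h1 h2 h3 h4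
    have hk2 : 2 ≤ k := by
      rcases k with _ | _ | k
      · omega
      · omega
      · omega
    have e : v = k * (2 ^ a * 3 ^ b * m) := by
      rw [hk, he]
      ring
    have := h n a b m k hm hel hk2 (by rw [← e]; exact h2) (by rw [← e]; exact h4)
    exact this
  have h1 := key v k hk hv.1.1 hv.1.2 huv hv.2
  have h2 := key w l hl hw.1.1 hw.1.2 huw hw.2
  apply hvw
  rw [hk, hl, h1, h2]

end Pool.Agent.Helper54.VF
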