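import Pool.Agent.Helper27.VF.Goals

/-!
# VF-ORC (shadow, helper54)
-/

set_option autoImplicit false

namespace Pool.Agent.Helper54.VF

open Pool.Agent.Helper27.VF

universe u

theorem vfORC : OraStmt.{u} → OrbStmt.{u} → OrcStmt.{u} := by
  intro hA hB A W _ _ G G₀ w p h k hk g d hd hd'
  by_contra hg
  obtain ⟨-, hora⟩ := hA A W G G₀ w p h k hk
  obtain ⟨-, horb, -, -⟩ := hB A W G G₀ w p h k hk
  obtain ⟨e, he, hge⟩ := horb g hg
  set d' := tr g d with hd'def
  have hdSS := hd.1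
  have hd'SS := hd'.1
  have heSS := he.1
  have h1 : Inn p g d'.1 := by
    rw [hd'def, inn_tr_fst, inv_mul_cancel]
    exact hd.2.1
  have hne : d' ≠ e := by
    intro heq
    rw [heq] at h1
    exact (inn_snd h heSS.1).1 hge h1
  obtain ⟨-, -, a, b, -, hb⟩ := hd'SS
  have hbe : Inn p b e.1 := by
    by_contra h2
    have h3 : Inn p b e.2 := (inn_snd h heSS.1).2 h2
    exact hora d' hd' e he hne b ⟨hb, h3⟩
  obtain ⟨hc, -⟩ := corner (h := b) (g := g) hk hd'.1 (SS.swap heSS) (inn_inter.2 ⟨h1, hge⟩)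
    (inn_inter.2 ⟨hb, hbe⟩)
  have h4 : tr g⁻¹ (cor d' (e.2, e.1)) = d := by
    refine hd.2.2 _ (SS.tr h hc g⁻¹) ?_ ?_
    · rw [inn_tr_fst, inv_inv, mul_one]
      exact inn_inter.2 ⟨h1, hge⟩
    · have h5 : tr g⁻¹ d' = d := by rw [hd'def, tr_tr, inv_mul_cancel, tr_one]
      refine ⟨?_, ?_⟩
      · intro x hx
        have hx' : (g⁻¹)⁻¹ • x ∈ d'.1 := hx.1
        rw [← h5]
        exact hx'
      · intro x hx
        rw [← h5] at hx
        exact Or.inl hx
  have h6 : cor d' (e.2, e.1) = d' := by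
    have h8 : tr g (tr g⁻¹ (cor d' (e.2, e.1))) = tr g d := congrArg (tr g) h4
    rw [tr_tr, mul_inv_cancel, tr_one] at h8
    exact h8
  have h7 : d'.1 ⊆ e.2 := by
    intro x hx
    rw [← h6] at hx
    exact hx.2
  exact (inn_snd h heSS.1).1 (inn_mono h7 hd'.2.1) he.2.1

end Pool.Agent.Helper54.VF
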