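import Pool.Agent.Helper27.VF.Goals

/-!
# VF-TOF (shadow, helper54)
-/

set_option autoImplicit false

namespace Pool.Agent.Helper54.VF

open Pool.Agent.Helper27.VF

universe u

variable {A W : Type u} [Group A] [MulAction A W]

theorem out_inv {G : SimpleGraph W} {K : Set W} {b : A}
    (hinv : ∀ x y, G.Adj x y → G.Adj (b • x) (b • y)) (hK : ∀ x, x ∉ K → b • x ∉ K) {x z : W}
    (h : Out G K x z) : Out G K (b • x) (b • z) := by
  unfold Out at h ⊢
  induction h with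
  | refl => exact Relation.ReflTransGen.refl
  | tail _ h2 ih => exact ih.tail ⟨hinv _ _ h2.1, hK _ h2.2⟩

/-- the restricted action -/
@[reducible] def act (B : Subgroup A) (K : Set W) (hK : ∀ g ∈ B, ∀ x ∈ K, g • x ∈ K) : MulAction B K where
  smul b x := ⟨(b : A) • (x : W), hK b b.2 x x.2⟩
  one_smul x := Subtype.ext (one_smul A (x : W))
  mul_smul a b x := Subtype.ext (mul_smul (a : A) (b : A) (x : W))

theorem tg_inv {G : SimpleGraph W} {B : Subgroup A} {K : Set W}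
    (hK : ∀ g ∈ B, ∀ x ∈ K, g • x ∈ K)
    (hinv : ∀ (a : A) (x y : W), G.Adj x y → G.Adj (a • x) (a • y)) (b : B) (x y : K)
    (h : (TG G K).Adj x y) :
    (TG G K).Adj ((act B K hK).toSMul.smul b x) ((act B K hK).toSMul.smul b y) := by
  have hK' : ∀ z, z ∉ K → (b : A) • z ∉ K := by
    intro z hz hz'
    apply hz
    have := hK _ (B.inv_mem b.2) _ hz'
    rwa [inv_smul_smul] at this
  unfold TG at h ⊢
  rw [SimpleGraph.fromRel_adj] at h ⊢
  obtain ⟨hne, h⟩ := h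
  refine ⟨?_, ?_⟩
  · intro he
    apply hne
    have h1 : (b : A) • (x : W) = (b : A) • (y : W) := congrArg Subtype.val he
    exact Subtype.ext (MulAction.injective (b : A) h1)
  · rcases h with ⟨z, h1, h2⟩ | ⟨z, h1, h2⟩
    · exact Or.inl ⟨(b : A) • z, out_inv (hinv b) hK' h1, hinv _ _ _ h2⟩
    · exact Or.inr ⟨(b : A) • z, out_inv (hinv b) hK' h1, hinv _ _ _ h2⟩

theorem vfTOF : ToaStmt.{u} → TobStmt.{u} → TocStmt.{u} → TodStmt.{u} → ToeStmt.{u} →
    TofStmt.{u} := by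
  intro hTOA hTOB hTOC hTOD hTOE A W _ _ G G₀ w p h k hk htf
  obtain ⟨hK, F, hF, hFK, hFo⟩ := hTOA A W G G₀ w p h k hk htf
  obtain ⟨hwK, hKp⟩ := hTOB A W G G₀ w p h k hk
  have hN := hTOC A W G G₀ w p h k hk htf
  set K : Set W := Kp A G p k with hKdef
  set B : Subgroup A := BB A G p k with hB
  obtain ⟨hle, hconn, hlf⟩ := hTOD W G G₀ K h.le hN h.conn ⟨w, hwK⟩ h.lf
  let inst : MulAction B K := act B K hK
  have hval : ∀ (b : B) (x : K), ((b • x : K) : W) = (b : A) • (x : W) := fun b x => rfl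
  have hr : Set.range (Subtype.val : K → W) ∈ p := by
    rw [Subtype.range_coe]; exact hKp
  set p' : Ultrafilter K := p.comap Subtype.val_injective hr with hp'
  have hmem : ∀ s : Set K, s ∈ p' ↔ Subtype.val '' s ∈ p := fun s => Ultrafilter.mem_comap _ _ _
  refine ⟨K, inst, TG G K, TG G₀ K, ⟨w, hwK⟩, p', ?_, ?_⟩
  · refine
      { free := ?_, fin := ?_, le := hle, inv := ?_, inv₀ := ?_, conn := hconn, lf := hlf,
        nonp := ?_, nb := ?_ }
    · intro b x hx
      have h1 : (b : A) • (x : W) = (x : W) := congrArg Subtype.val hx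
      exact Subtype.ext (h.free _ _ h1)
    · refine ⟨Subtype.val ⁻¹' F, hF.preimage Subtype.val_injective.injOn, fun x => ?_⟩
      obtain ⟨g, hg, f, hf, hgf⟩ := hFo x x.2
      exact ⟨⟨g, hg⟩, ⟨f, hFK hf⟩, hf, Subtype.ext hgf⟩
    · intro b x y hxy
      exact tg_inv hK h.inv b x y hxy
    · intro b x y hxy
      exact tg_inv hK h.inv₀ b x y hxy
    · intro F hF' hFp
      rw [hmem] at hFp
      exact h.nonp _ (hF'.image _) hFp
    · rw [hmem]
      refine Filter.mem_of_superset (Filter.inter_mem h.nb hKp) ?_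
      rintro x ⟨hx1, hx2⟩
      refine ⟨⟨x, hx2⟩, ?_, rfl⟩
      have hx1' : G.Adj w x := hx1
      change (TG G K).Adj ⟨w, hwK⟩ ⟨x, hx2⟩
      unfold TG
      rw [SimpleGraph.fromRel_adj]
      refine ⟨?_, Or.inl ⟨w, Relation.ReflTransGen.refl, hx1'⟩⟩
      intro he
      exact hx1'.ne (congrArg Subtype.val he)
  · rintro ⟨Z, hZ, hZc⟩
    refine ⟨Subtype.val '' Z, hZ.image Subtype.val_injective.injOn, ?_⟩
    rintro _ ⟨a, ha, rfl⟩ _ ⟨b, hb, rfl⟩ c hc ⟨hd1, hd2⟩
    obtain ⟨c', hc', X, hX, hX1, hX2⟩ := hTOE W G K hN c hc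
    have key : ∀ (e : B) (U : Set W) (U' : Set K), Inn p (e : A) U →
        (∀ y : K, (y : W) ∈ U → (y : W) ∉ X → y ∈ U') → Inn p' e U' := by
      intro e U U' h1 h2
      have h3 : Inn p (e : A) Xᶜ := inn_compl.2 (not_inn_finite h hX)
      unfold Inn
      rw [hmem]
      unfold Inn at h1 h3
      refine Filter.mem_of_superset (Filter.inter_mem (Filter.inter_mem h1 h3) hKp) ?_
      rintro x ⟨⟨hx1, hx2⟩, hx3⟩
      exact ⟨⟨x, hx3⟩, h2 ⟨(e : A) • x, hK e e.2 x hx3⟩ hx1 hx2, rfl⟩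
    exact hZc a ha b hb c' hc' ⟨key a _ _ hd1 hX1, key b _ _ hd2 hX2⟩

end Pool.Agent.Helper54.VF
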